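import Pool.Agent.H95.AD.TargetsU

set_option autoImplicit false

open MeasureTheory Set Filter
open scoped Real

namespace Pool.Agent.H63.AD

open Pool.Agent.H31.CN Pool.Agent.H95.AD

theorem img : Real.exp '' Ioi (0 : ℝ) = Ioi 1 := by
  ext t
  constructor
  · rintro ⟨v, hv, rfl⟩
    exact Real.one_lt_exp_iff.2 hv
  · intro ht
    have ht' : (1 : ℝ) < t := ht
    exact ⟨Real.log t, Real.log_pos ht', Real.exp_log (by linarith)⟩

/-- the integrand after the substitution -/
noncomputable def h (a b v : ℝ) : ℝ := Real.exp (-(a * Real.exp (-v) + b * Real.exp v))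

theorem subst (a b v : ℝ) : |Real.exp v| • (Real.exp (-(a / Real.exp v + b * Real.exp v)) /
    Real.exp v) = h a b v := by
  have h1 : 0 < Real.exp v := Real.exp_pos v
  rw [abs_of_pos h1, smul_eq_mul, mul_div_cancel₀ _ h1.ne', h, Real.exp_neg v, div_eq_mul_inv]

theorem int1 (a b : ℝ) : (∫ t in Ioi (1 : ℝ), Real.exp (-(a / t + b * t)) / t) =
    ∫ v in Ioi (0 : ℝ), h a b v := by
  rw [← img, integral_image_eq_integral_abs_deriv_smul measurableSet_Ioi
    (fun x _ => (Real.hasDerivAt_exp x).hasDerivWithinAt) (Real.exp_injective.injOn)]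
  refine integral_congr_ae (Eventually.of_forall fun v => ?_)
  exact subst a b v

theorem ion1 (a b : ℝ) : IntegrableOn (fun t : ℝ => Real.exp (-(a / t + b * t)) / t) (Ioi 1) ↔
    IntegrableOn (fun v => h a b v) (Ioi 0) := by
  rw [← img, integrableOn_image_iff_integrableOn_abs_deriv_smul measurableSet_Ioi
    (fun x _ => (Real.hasDerivAt_exp x).hasDerivWithinAt) (Real.exp_injective.injOn)]
  have e : (fun x => |Real.exp x| • (Real.exp (-(a / Real.exp x + b * Real.exp x)) /
      Real.exp x)) = fun v => h a b v := funext fun v => subst a b v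
  rw [e]

theorem shift (a b v : ℝ) (ha : 0 < a) (hb : 0 < b) :
    h a b v = Real.exp (-(2 * Real.sqrt (a * b) * Real.cosh (v - Real.log (a / b) / 2))) := by
  obtain ⟨c, hc⟩ : ∃ c : ℝ, c = Real.log (a / b) / 2 := ⟨_, rfl⟩
  have hab : 0 < a / b := div_pos ha hb
  have h1 : Real.exp c * Real.exp c = a / b := by
    rw [← Real.exp_add, hc, add_halves, Real.exp_log hab]
  have hE : 0 < Real.exp c := Real.exp_pos c
  have h2 : Real.sqrt (a * b) = b * Real.exp c := by
    rw [Real.sqrt_eq_iff_mul_self_eq (by positivity) (by positivity)]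
    have : b * Real.exp c * (b * Real.exp c) = b * b * (Real.exp c * Real.exp c) := by ring
    rw [this, h1]
    field_simp
  have h3 : a = b * (Real.exp c * Real.exp c) := by rw [h1]; field_simp
  rw [h, ← hc, Real.cosh_eq, h2, neg_sub, Real.exp_sub, Real.exp_sub, Real.exp_neg v]
  congr 1
  have hv : 0 < Real.exp v := Real.exp_pos v
  conv_lhs => rw [h3]
  field_simp
  ring

theorem pf_K0M (hK0 : T_K0) : T_K0M := by
  intro a b ha hb
  obtain ⟨x, hx⟩ : ∃ x : ℝ, x = 2 * Real.sqrt (a * b) := ⟨_, rfl⟩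
  have hx0 : 0 < x := by
    have : 0 < Real.sqrt (a * b) := Real.sqrt_pos.2 (by positivity)
    rw [hx]; positivity
  have hI : IntegrableOn (fun u : ℝ => Real.exp (-(x * Real.cosh u))) (Ioi 0) := (hK0 x hx0).1
  have hI2 : IntegrableOn (fun u : ℝ => Real.exp (-(x * Real.cosh u))) (Iic 0) := by
    have h1 : IntegrableOn (fun u : ℝ => Real.exp (-(x * Real.cosh u))) (Ici (-0)) := by
      rw [neg_zero]
      exact (integrableOn_Ici_iff_integrableOn_Ioi (μ := volume)).2 hI
    have h2 : IntegrableOn (fun u : ℝ => Real.exp (-(x * Real.cosh (-u)))) (Iic 0) := by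
      have h3 := h1.comp_neg_Iic (c := (0 : ℝ))
      exact h3
    simpa [Real.cosh_neg] using h2
  have hR : Integrable (fun u : ℝ => Real.exp (-(x * Real.cosh u))) := by
    rw [← integrableOn_univ, ← Iic_union_Ioi (a := (0 : ℝ))]
    exact hI2.union hI
  have hk : ∫ u : ℝ, Real.exp (-(x * Real.cosh u)) = 2 * k0 x := by
    rw [k0, ← integral_comp_abs (f := fun u : ℝ => Real.exp (-(x * Real.cosh u)))]
    simp only [Real.cosh_abs]
  have hh : (fun v => h a b v) = fun v => (fun u : ℝ => Real.exp (-(x * Real.cosh u)))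
      (v - Real.log (a / b) / 2) := by
    funext v
    rw [shift a b v ha hb, hx]
  have hH : Integrable (fun v => h a b v) := by
    rw [hh]
    exact hR.comp_sub_right _
  have hHk : ∫ v, h a b v = 2 * k0 x := by
    rw [← hk, hh]
    exact integral_sub_right_eq_self (fun u : ℝ => Real.exp (-(x * Real.cosh u))) _
  refine ⟨(ion1 a b).2 hH.integrableOn, ?_⟩
  rw [int1, int1, ← hx, ← hHk]
  have h4 : ∫ v in Ioi (0 : ℝ), h b a v = ∫ v in Iic (0 : ℝ), h a b v := by
    have h5 := integral_comp_neg_Ioi (0 : ℝ) (fun v => h a b v)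
    rw [neg_zero] at h5
    rw [← h5]
    refine integral_congr_ae (Eventually.of_forall fun v => ?_)
    simp only [h, neg_neg]
    rw [add_comm]
  rw [h4, add_comm]
  exact intervalIntegral.integral_Iic_add_Ioi hH.integrableOn hH.integrableOn

end Pool.Agent.H63.AD
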