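import Pool.Agent.H95.AD.TargetsU

set_option autoImplicit false

open MeasureTheory Set Filter
open scoped Real

namespace Pool.Agent.H63.AD

open Pool.Agent.H31.CN Pool.Agent.H95.AD

theorem mik_fin {ι : Type} (s : Finset ℕ) (F : ι → ℕ → ℝ) (b : ι → ℝ) (hb : ∀ i, 0 ≤ b i)
    (hF : ∀ i, ∑ D ∈ s, F i D ^ 2 ≤ b i ^ 2) (t : Finset ι) :
    ∑ D ∈ s, (∑ i ∈ t, |F i D|) ^ 2 ≤ (∑ i ∈ t, b i) ^ 2 := by
  have h1 : ∑ D ∈ s, (∑ i ∈ t, |F i D|) ^ 2 =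
      ∑ i ∈ t, ∑ j ∈ t, ∑ D ∈ s, |F i D| * |F j D| := by
    have : ∀ D ∈ s, (∑ i ∈ t, |F i D|) ^ 2 = ∑ i ∈ t, ∑ j ∈ t, |F i D| * |F j D| := by
      intro D _
      rw [sq, Finset.sum_mul_sum]
    rw [Finset.sum_congr rfl this, Finset.sum_comm]
    refine Finset.sum_congr rfl fun i _ => ?_
    rw [Finset.sum_comm]
  have h2 : (∑ i ∈ t, b i) ^ 2 = ∑ i ∈ t, ∑ j ∈ t, b i * b j := by
    rw [sq, Finset.sum_mul_sum]
  have h3 : ∀ i, Real.sqrt (∑ D ∈ s, |F i D| ^ 2) ≤ b i := by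
    intro i
    refine Real.sqrt_le_iff.2 ⟨hb i, ?_⟩
    simpa [sq_abs] using hF i
  rw [h1, h2]
  refine Finset.sum_le_sum fun i _ => Finset.sum_le_sum fun j _ => ?_
  refine (Real.sum_mul_le_sqrt_mul_sqrt s _ _).trans ?_
  exact mul_le_mul (h3 i) (h3 j) (Real.sqrt_nonneg _) (hb i)

theorem pf_MIK : T_MIK := by
  intro ι _ s F b hb hbs hF
  have h1 : ∀ D ∈ s, ∀ i, |F i D| ≤ b i := by
    intro D hD i
    refine abs_le_of_sq_le_sq ?_ (hb i)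
    refine le_trans ?_ (hF i)
    exact Finset.single_le_sum (f := fun D => F i D ^ 2) (fun _ _ => sq_nonneg _) hD
  have h2 : ∀ D ∈ s, Summable (fun i => |F i D|) := fun D hD =>
    Summable.of_nonneg_of_le (fun _ => abs_nonneg _) (h1 D hD) hbs
  refine ⟨h2, ?_⟩
  have h3 : Tendsto (fun t : Finset ι => ∑ D ∈ s, (∑ i ∈ t, |F i D|) ^ 2) atTop
      (nhds (∑ D ∈ s, (∑' i, |F i D|) ^ 2)) := by
    refine tendsto_finsetSum s fun D hD => ?_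
    exact (h2 D hD).hasSum.pow 2
  refine le_of_tendsto h3 (Eventually.of_forall fun t => ?_)
  refine (mik_fin s F b hb hF t).trans ?_
  refine pow_le_pow_left₀ (Finset.sum_nonneg fun i _ => hb i) ?_ 2
  exact hbs.sum_le_tsum t (fun i _ => hb i)

end Pool.Agent.H63.AD
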