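import Pool.Agent.H95.AD.TargetsU

set_option autoImplicit false

open MeasureTheory Set Filter
open scoped Real Nat

namespace Pool.Agent.H63.AD

open Pool.Agent.H31.CN Pool.Agent.H95.AD

theorem powexp (r : ℝ) (hr : 0 ≤ r) :
    ∃ C : ℝ, 0 < C ∧ ∀ y : ℝ, 0 < y → y ^ r ≤ C * Real.exp (y / 2) := by
  obtain ⟨k, hk⟩ := exists_nat_ge r
  refine ⟨1 + 2 ^ k * (k ! : ℝ), by positivity, fun y hy => ?_⟩
  have h0 : (1 : ℝ) ≤ Real.exp (y / 2) := Real.one_le_exp (by positivity)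
  have h1 : (y / 2) ^ k / (k ! : ℝ) ≤ Real.exp (y / 2) :=
    Real.pow_div_factorial_le_exp (y / 2) (by positivity) k
  have hf : (0 : ℝ) < (k ! : ℝ) := by exact_mod_cast Nat.factorial_pos k
  have h2 : y ^ k ≤ 2 ^ k * (k ! : ℝ) * Real.exp (y / 2) := by
    rw [div_le_iff₀ hf, div_pow, div_le_iff₀ (by positivity)] at h1
    calc y ^ k ≤ Real.exp (y / 2) * (k ! : ℝ) * 2 ^ k := h1
      _ = 2 ^ k * (k ! : ℝ) * Real.exp (y / 2) := by ring
  rcases le_total y 1 with h | h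
  · have h3 : y ^ r ≤ 1 := Real.rpow_le_one hy.le h hr
    have h4 : 0 ≤ 2 ^ k * (k ! : ℝ) * Real.exp (y / 2) := by positivity
    nlinarith
  · have h3 : y ^ r ≤ y ^ (k : ℝ) := Real.rpow_le_rpow_of_exponent_le h hk
    rw [Real.rpow_natCast] at h3
    nlinarith

theorem geo (y : ℝ) (hy : 0 < y) : Summable (fun n : ℕ => Real.exp (-(y * ((n : ℝ) + 1)))) ∧
    ∑' n : ℕ, Real.exp (-(y * ((n : ℝ) + 1))) ≤ 1 / y := by
  have hq0 : 0 < Real.exp (-y) := Real.exp_pos _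
  have hq1 : Real.exp (-y) < 1 := Real.exp_lt_one_iff.2 (by linarith)
  have e : (fun n : ℕ => Real.exp (-(y * ((n : ℝ) + 1)))) =
      fun n : ℕ => Real.exp (-y) * Real.exp (-y) ^ n := by
    funext n
    rw [← Real.exp_nat_mul, ← Real.exp_add]
    congr 1
    ring
  have hs := summable_geometric_of_lt_one hq0.le hq1
  refine ⟨by rw [e]; exact hs.mul_left _, ?_⟩
  rw [e, tsum_mul_left, tsum_geometric_of_lt_one hq0.le hq1]
  have h1 : y + 1 ≤ Real.exp y := Real.add_one_le_exp y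
  have h2 : Real.exp (-y) * Real.exp y = 1 := by rw [← Real.exp_add]; simp
  rw [← div_eq_mul_inv, div_le_div_iff₀ (by linarith) hy, one_mul]
  nlinarith

/-- the statement without `δ` -/
def SA (r : ℝ) : Prop := ∃ C : ℝ, 0 < C ∧ ∀ x : ℝ, 0 < x →
    Summable (fun n : ℕ => ((n : ℝ) + 1) ^ r * Real.exp (-(x * ((n : ℝ) + 1)))) ∧
    ∑' n : ℕ, ((n : ℝ) + 1) ^ r * Real.exp (-(x * ((n : ℝ) + 1))) ≤ C * x ^ (-(r + 1))

theorem sa_nonneg (r : ℝ) (hr : 0 ≤ r) : SA r := by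
  obtain ⟨C, hC, hb⟩ := powexp r hr
  refine ⟨2 * C, by positivity, fun x hx => ?_⟩
  obtain ⟨hs, ht⟩ := geo (x / 2) (by positivity)
  have hle : ∀ n : ℕ, ((n : ℝ) + 1) ^ r * Real.exp (-(x * ((n : ℝ) + 1))) ≤
      C * x ^ (-r) * Real.exp (-(x / 2 * ((n : ℝ) + 1))) := by
    intro n
    have hn : (0 : ℝ) < (n : ℝ) + 1 := by positivity
    have h1 := hb (x * ((n : ℝ) + 1)) (by positivity)
    rw [Real.mul_rpow hx.le hn.le] at h1
    have h2 : x ^ (-r) * x ^ r = 1 := by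
      rw [← Real.rpow_add hx]; simp
    have hxr : 0 < x ^ (-r) := Real.rpow_pos_of_pos hx _
    have h3 : ((n : ℝ) + 1) ^ r ≤ C * x ^ (-r) * Real.exp (x * ((n : ℝ) + 1) / 2) := by
      calc ((n : ℝ) + 1) ^ r = x ^ (-r) * (x ^ r * ((n : ℝ) + 1) ^ r) := by
            rw [← mul_assoc, h2, one_mul]
        _ ≤ x ^ (-r) * (C * Real.exp (x * ((n : ℝ) + 1) / 2)) := by gcongr
        _ = _ := by ring
    calc ((n : ℝ) + 1) ^ r * Real.exp (-(x * ((n : ℝ) + 1)))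
        ≤ C * x ^ (-r) * Real.exp (x * ((n : ℝ) + 1) / 2) * Real.exp (-(x * ((n : ℝ) + 1))) := by
          gcongr
      _ = C * x ^ (-r) * Real.exp (-(x / 2 * ((n : ℝ) + 1))) := by
          rw [mul_assoc, ← Real.exp_add]
          congr 2
          ring
  have hsum : Summable (fun n : ℕ => ((n : ℝ) + 1) ^ r * Real.exp (-(x * ((n : ℝ) + 1)))) :=
    Summable.of_nonneg_of_le (fun n => by positivity) hle (hs.mul_left _)
  refine ⟨hsum, ?_⟩
  calc ∑' n : ℕ, ((n : ℝ) + 1) ^ r * Real.exp (-(x * ((n : ℝ) + 1)))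
      ≤ ∑' n : ℕ, C * x ^ (-r) * Real.exp (-(x / 2 * ((n : ℝ) + 1))) :=
        hsum.tsum_le_tsum hle (hs.mul_left _)
    _ = C * x ^ (-r) * ∑' n : ℕ, Real.exp (-(x / 2 * ((n : ℝ) + 1))) := tsum_mul_left
    _ ≤ C * x ^ (-r) * (1 / (x / 2)) := by gcongr
    _ = 2 * C * x ^ (-(r + 1)) := by
        rw [neg_add, Real.rpow_add hx, Real.rpow_neg_one]
        field_simp

theorem bern (s : ℝ) (hs0 : 0 < s) (hs1 : s < 1) (n : ℕ) :
    s * ((n : ℝ) + 1) ^ (s - 1) ≤ ((n : ℝ) + 1) ^ s - (n : ℝ) ^ s := by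
  have hn : (0 : ℝ) < (n : ℝ) + 1 := by positivity
  have h1 : (1 + -(1 / ((n : ℝ) + 1))) ^ s ≤ 1 + s * -(1 / ((n : ℝ) + 1)) := by
    refine _root_.rpow_one_add_le_one_add_mul_self ?_ hs0.le hs1.le
    rw [neg_le_neg_iff, div_le_one hn]
    have : (0 : ℝ) ≤ n := Nat.cast_nonneg n
    linarith
  have h2 : (1 + -(1 / ((n : ℝ) + 1))) = (n : ℝ) / ((n : ℝ) + 1) := by
    field_simp
    ring
  rw [h2, Real.div_rpow (Nat.cast_nonneg n) hn.le] at h1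
  have hp : 0 < ((n : ℝ) + 1) ^ s := Real.rpow_pos_of_pos hn _
  rw [div_le_iff₀ hp] at h1
  rw [Real.rpow_sub_one hn.ne']
  have h3 : (1 + s * -(1 / ((n : ℝ) + 1))) * ((n : ℝ) + 1) ^ s =
      ((n : ℝ) + 1) ^ s - s * (((n : ℝ) + 1) ^ s / ((n : ℝ) + 1)) := by
    ring
  linarith

theorem sa_neg (r : ℝ) (hr0 : -1 < r) (hr : r < 0) : SA r := by
  obtain ⟨s, hs⟩ : ∃ s : ℝ, s = r + 1 := ⟨_, rfl⟩
  have hs0 : 0 < s := by linarith
  have hs1 : s < 1 := by linarith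
  obtain ⟨C, hC, hb⟩ := sa_nonneg s hs0.le
  refine ⟨1 / s * C, by positivity, fun x hx => ?_⟩
  obtain ⟨h1, h2⟩ := hb x hx
  obtain ⟨g, hg⟩ : ∃ g : ℕ → ℝ, g = fun n : ℕ => (n : ℝ) ^ s * Real.exp (-(x * (n : ℝ))) :=
    ⟨_, rfl⟩
  have hg1 : ∀ n : ℕ, g (n + 1) = ((n : ℝ) + 1) ^ s * Real.exp (-(x * ((n : ℝ) + 1))) := by
    intro n
    rw [hg]
    push_cast
    rfl
  have hg0 : g 0 = 0 := by
    rw [hg]
    simp [Real.zero_rpow hs0.ne']
  have hs1' : Summable (fun n => g (n + 1)) := by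
    simp only [hg1]; exact h1
  have hsg : Summable g := (summable_nat_add_iff 1).1 hs1'
  have htg : ∑' n, g (n + 1) = ∑' n, g n := by
    rw [hsg.tsum_eq_zero_add, hg0, zero_add]
  have hle : ∀ n : ℕ, ((n : ℝ) + 1) ^ r * Real.exp (-(x * ((n : ℝ) + 1))) ≤
      1 / s * (g (n + 1) - Real.exp (-x) * g n) := by
    intro n
    have h3 := bern s hs0 hs1 n
    have h4 : s - 1 = r := by rw [hs]; ring
    rw [h4] at h3
    have h5 : Real.exp (-x) * g n = (n : ℝ) ^ s * Real.exp (-(x * ((n : ℝ) + 1))) := by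
      rw [hg]
      simp only
      rw [mul_left_comm, ← Real.exp_add]
      congr 2
      ring
    rw [h5, hg1, ← sub_mul]
    have he : 0 < Real.exp (-(x * ((n : ℝ) + 1))) := Real.exp_pos _
    have h6 : ((n : ℝ) + 1) ^ r ≤ 1 / s * (((n : ℝ) + 1) ^ s - (n : ℝ) ^ s) := by
      rw [one_div, ← div_le_iff₀' (by positivity), div_inv_eq_mul, mul_comm]
      exact h3
    calc ((n : ℝ) + 1) ^ r * Real.exp (-(x * ((n : ℝ) + 1)))
        ≤ 1 / s * (((n : ℝ) + 1) ^ s - (n : ℝ) ^ s) * Real.exp (-(x * ((n : ℝ) + 1))) := by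
          gcongr
      _ = _ := by ring
  have hsR : Summable (fun n : ℕ => 1 / s * (g (n + 1) - Real.exp (-x) * g n)) :=
    (hs1'.sub (hsg.mul_left _)).mul_left _
  have hsum : Summable (fun n : ℕ => ((n : ℝ) + 1) ^ r * Real.exp (-(x * ((n : ℝ) + 1)))) :=
    Summable.of_nonneg_of_le (fun n => by positivity) hle hsR
  refine ⟨hsum, ?_⟩
  have h7 : ∑' n : ℕ, 1 / s * (g (n + 1) - Real.exp (-x) * g n) =
      1 / s * ((1 - Real.exp (-x)) * ∑' n, g n) := by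
    rw [tsum_mul_left, hs1'.tsum_sub (hsg.mul_left _), tsum_mul_left, htg]
    ring
  have h8 : ∑' n, g n ≤ C * x ^ (-(s + 1)) := by
    rw [← htg]
    simp only [hg1]
    exact h2
  have h9 : 0 ≤ ∑' n, g n := tsum_nonneg fun n => by rw [hg]; positivity
  have h10 : 1 - Real.exp (-x) ≤ x := by
    have := Real.add_one_le_exp (-x)
    linarith
  have hx0 : 0 < x ^ (-(s + 1)) := Real.rpow_pos_of_pos hx _
  calc ∑' n : ℕ, ((n : ℝ) + 1) ^ r * Real.exp (-(x * ((n : ℝ) + 1)))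
      ≤ ∑' n : ℕ, 1 / s * (g (n + 1) - Real.exp (-x) * g n) := hsum.tsum_le_tsum hle hsR
    _ = 1 / s * ((1 - Real.exp (-x)) * ∑' n, g n) := h7
    _ ≤ 1 / s * (x * (C * x ^ (-(s + 1)))) := by gcongr
    _ = 1 / s * C * x ^ (-(r + 1)) := by
        rw [← hs, neg_add, Real.rpow_add hx, Real.rpow_neg_one]
        field_simp

theorem sa (r : ℝ) (hr : -1 < r) : SA r := by
  rcases le_or_gt 0 r with h | h
  · exact sa_nonneg r h
  · exact sa_neg r hr h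

theorem pf_SEX : T_SEX := by
  intro r δ hr hδ
  obtain ⟨C, hC, hb⟩ := sa r hr
  obtain ⟨K, hK, hk⟩ := powexp δ hδ
  refine ⟨2 ^ (r + 1) * C * K, by positivity, fun x hx => ⟨(hb x hx).1, ?_⟩⟩
  obtain ⟨h1, h2⟩ := hb (x / 2) (by positivity)
  have hle : ∀ n : ℕ, ((n : ℝ) + 1) ^ r * Real.exp (-(x * ((n : ℝ) + 1))) ≤
      Real.exp (-(x / 2)) * (((n : ℝ) + 1) ^ r * Real.exp (-(x / 2 * ((n : ℝ) + 1)))) := by
    intro n
    rw [mul_left_comm, ← Real.exp_add]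
    refine mul_le_mul_of_nonneg_left ?_ (by positivity)
    refine Real.exp_le_exp.2 ?_
    have : (0 : ℝ) ≤ n := Nat.cast_nonneg n
    nlinarith [mul_nonneg hx.le this]
  have h3 : Real.exp (-(x / 2)) ≤ K * x ^ (-δ) := by
    have h4 := hk x hx
    have h5 : x ^ (-δ) * x ^ δ = 1 := by rw [← Real.rpow_add hx]; simp
    have h6 : 0 < x ^ (-δ) := Real.rpow_pos_of_pos hx _
    have h7 : Real.exp (-(x / 2)) * Real.exp (x / 2) = 1 := by rw [← Real.exp_add]; simp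
    calc Real.exp (-(x / 2)) = Real.exp (-(x / 2)) * (x ^ (-δ) * x ^ δ) := by rw [h5, mul_one]
      _ ≤ Real.exp (-(x / 2)) * (x ^ (-δ) * (K * Real.exp (x / 2))) := by gcongr
      _ = K * x ^ (-δ) * (Real.exp (-(x / 2)) * Real.exp (x / 2)) := by ring
      _ = K * x ^ (-δ) := by rw [h7, mul_one]
  have hT : 0 ≤ ∑' n : ℕ, ((n : ℝ) + 1) ^ r * Real.exp (-(x / 2 * ((n : ℝ) + 1))) :=
    tsum_nonneg fun n => by positivity
  have hxd : 0 < x ^ (-δ) := Real.rpow_pos_of_pos hx _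
  calc ∑' n : ℕ, ((n : ℝ) + 1) ^ r * Real.exp (-(x * ((n : ℝ) + 1)))
      ≤ ∑' n : ℕ, Real.exp (-(x / 2)) *
          (((n : ℝ) + 1) ^ r * Real.exp (-(x / 2 * ((n : ℝ) + 1)))) :=
        (hb x hx).1.tsum_le_tsum hle (h1.mul_left _)
    _ = Real.exp (-(x / 2)) *
          ∑' n : ℕ, ((n : ℝ) + 1) ^ r * Real.exp (-(x / 2 * ((n : ℝ) + 1))) := tsum_mul_left
    _ ≤ K * x ^ (-δ) * (C * (x / 2) ^ (-(r + 1))) := by gcongr
    _ = 2 ^ (r + 1) * C * K * x ^ (-(r + 1 + δ)) := by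
        rw [Real.div_rpow hx.le (by norm_num), Real.rpow_neg (by norm_num : (0 : ℝ) ≤ 2),
          neg_add (r + 1) δ, Real.rpow_add hx (-(r + 1)) (-δ), div_inv_eq_mul]
        ring

end Pool.Agent.H63.AD
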