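import Pool.Agent.H63.AD.SEX

set_option autoImplicit false

open MeasureTheory Set Filter
open scoped Real Nat

namespace Pool.Agent.H63.AD

open Pool.Agent.H31.CN Pool.Agent.H95.AD

theorem lin : ∃ C : ℝ, 0 < C ∧ ∀ A : ℕ, 1 ≤ A →
    Summable (fun n : ℕ => (n : ℝ) * Real.exp (-((n : ℝ) / A))) ∧
    ∑' n : ℕ, (n : ℝ) * Real.exp (-((n : ℝ) / A)) ≤ C * (A : ℝ) ^ 2 := by
  obtain ⟨C, hC, hb⟩ := sa_nonneg 1 zero_le_one
  refine ⟨C, hC, fun A hA => ?_⟩
  have hA0 : (0 : ℝ) < A := by exact_mod_cast hA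
  obtain ⟨h1, h2⟩ := hb (1 / A) (by positivity)
  obtain ⟨g, hg⟩ : ∃ g : ℕ → ℝ, g = fun n : ℕ => (n : ℝ) * Real.exp (-((n : ℝ) / A)) :=
    ⟨_, rfl⟩
  have hg1 : ∀ n : ℕ, g (n + 1) =
      ((n : ℝ) + 1) ^ (1 : ℝ) * Real.exp (-(1 / (A : ℝ) * ((n : ℝ) + 1))) := by
    intro n
    rw [hg]
    simp only
    push_cast
    rw [Real.rpow_one]
    congr 3
    ring
  have hg0 : g 0 = 0 := by rw [hg]; simp
  have hs1 : Summable (fun n => g (n + 1)) := by simp only [hg1]; exact h1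
  have hsg : Summable g := (summable_nat_add_iff 1).1 hs1
  have htg : ∑' n, g (n + 1) = ∑' n, g n := by
    rw [hsg.tsum_eq_zero_add, hg0, zero_add]
  rw [← hg]
  refine ⟨hsg, ?_⟩
  rw [← htg]
  simp only [hg1]
  refine h2.trans (le_of_eq ?_)
  have h3 : (1 / (A : ℝ)) ^ (-(1 + 1) : ℝ) = (A : ℝ) ^ 2 := by
    have : (-(1 + 1) : ℝ) = -((2 : ℕ) : ℝ) := by norm_num
    rw [this, Real.rpow_neg (by positivity), Real.rpow_natCast]
    field_simp
  rw [h3]

theorem k0_le (hK0 : T_K0) (n A D : ℕ) (hn : 1 ≤ n) (hA : 1 ≤ A) (hD : 1 ≤ D) :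
    0 ≤ k0 (π * n * Real.sqrt D / A) ∧
    k0 (π * n * Real.sqrt D / A) ≤ 2 * A * Real.exp (-((n : ℝ) / A)) := by
  have hA0 : (0 : ℝ) < A := by exact_mod_cast hA
  have hA1 : (1 : ℝ) ≤ A := by exact_mod_cast hA
  have hn1 : (1 : ℝ) ≤ n := by exact_mod_cast hn
  have hD1 : (1 : ℝ) ≤ Real.sqrt D := by
    rw [Real.one_le_sqrt]
    exact_mod_cast hD
  have hpi : (1 : ℝ) ≤ π := by linarith [Real.pi_gt_three]
  have hx : (n : ℝ) / A ≤ π * n * Real.sqrt D / A := by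
    gcongr
    calc (n : ℝ) = 1 * n * 1 := by ring
      _ ≤ π * n * Real.sqrt D := by gcongr
  have hy0 : (0 : ℝ) < (n : ℝ) / A := by positivity
  obtain ⟨-, h1, h2, h3⟩ := hK0 ((n : ℝ) / A) hy0
  have h4 := (hK0 (π * n * Real.sqrt D / A) (hy0.trans_le hx)).2.1
  refine ⟨h4.le, (h3 _ hx).trans (h2.trans ?_)⟩
  have h5 : 1 / (A : ℝ) ≤ Real.sqrt ((n : ℝ) / A) := by
    refine Real.le_sqrt_of_sq_le ?_
    calc (1 / (A : ℝ)) ^ 2 = 1 / A * (1 / A) := by ring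
      _ ≤ 1 * (1 / A) := by
          gcongr
          rw [div_le_one hA0]
          exact hA1
      _ ≤ n * (1 / A) := by gcongr
      _ = n / A := by ring
  have h6 : 0 < Real.sqrt ((n : ℝ) / A) := Real.sqrt_pos.2 hy0
  have h7 : 2 / Real.sqrt ((n : ℝ) / A) ≤ 2 * A := by
    rw [div_le_iff₀ h6]
    have : 1 / (A : ℝ) * A = 1 := by field_simp
    nlinarith
  gcongr

theorem tau_le (n : ℕ) : tau n ≤ n := by
  rw [tau]
  exact_mod_cast Nat.card_divisors_le_self n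

theorem tau_nonneg (n : ℕ) : 0 ≤ tau n := by
  rw [tau]
  positivity

theorem ee_norm (x : ℝ) : ‖ee x‖ = 1 := by
  rw [ee, Complex.norm_exp]
  simp

theorem ee_re (x : ℝ) : (ee x).re = Real.cos (2 * π * x) := by
  rw [ee]
  have : 2 * (π : ℂ) * Complex.I * x = ((2 * π * x : ℝ) : ℂ) * Complex.I := by
    push_cast
    ring
  rw [this, Complex.exp_ofReal_mul_I_re]

theorem rs_le (n A D : ℕ) : ‖rs n A D‖ ≤ 2 * A := by
  rw [rs]
  refine (norm_sum_le _ _).trans ?_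
  simp only [ee_norm, Finset.sum_const, nsmul_eq_mul, mul_one]
  have := (Finset.card_filter_le (Finset.range (2 * A)) (fun B => 4 * A ∣ B ^ 2 + D))
  rw [Finset.card_range] at this
  exact_mod_cast this

theorem rs_re (n A D : ℕ) : (rs n A D).re =
    ∑ B ∈ (Finset.range (2 * A)).filter (fun B => 4 * A ∣ B ^ 2 + D),
      Real.cos (π * n * B / A) := by
  rw [rs, Complex.re_sum]
  refine Finset.sum_congr rfl fun B _ => ?_
  rw [ee_re]
  congr 1
  ring

theorem aa_zero_left (e m n D : ℕ) : aa e m 0 n D = 0 := by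
  rw [aa]; simp

theorem aa_zero_right (e m A D : ℕ) : aa e m A 0 D = 0 := by
  rw [aa, tau]; simp

theorem aa_le (hK0 : T_K0) (e m A n D : ℕ) (he : 1 ≤ e) (hA : 1 ≤ A) (hD : 1 ≤ D) :
    ‖aa e m A n D‖ ≤ 16 * A * |Vk ((e : ℝ) ^ 2 * A / ((m : ℝ) * Real.sqrt D))| *
      ((n : ℝ) * Real.exp (-((n : ℝ) / A))) := by
  rcases Nat.eq_zero_or_pos n with hn | hn
  · rw [hn, aa_zero_right]
    simp
  · have hA0 : (0 : ℝ) < A := by exact_mod_cast hA
    have he1 : (1 : ℝ) ≤ e := by exact_mod_cast he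
    have he0 : (0 : ℝ) < e := by linarith
    obtain ⟨h1, h2⟩ := k0_le hK0 n A D hn hA hD
    obtain ⟨w, hw⟩ : ∃ w : ℝ, w = Vk ((e : ℝ) ^ 2 * A / ((m : ℝ) * Real.sqrt D)) := ⟨_, rfl⟩
    obtain ⟨K, hK⟩ : ∃ K : ℝ, K = k0 (π * n * Real.sqrt D / A) := ⟨_, rfl⟩
    rw [← hK] at h1 h2
    rw [aa, norm_mul, Complex.norm_real, Real.norm_eq_abs, ← hw, ← hK, abs_mul, abs_mul,
      abs_of_nonneg h1, abs_of_nonneg (div_nonneg (mul_nonneg (by norm_num) (tau_nonneg n))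
        (by positivity : (0 : ℝ) ≤ (e : ℝ) * A))]
    have h3 : 4 * tau n / ((e : ℝ) * A) ≤ 4 * n / A := by
      rw [div_le_div_iff₀ (by positivity) hA0]
      have h4 := tau_le n
      have hn0 : (0 : ℝ) ≤ n := Nat.cast_nonneg n
      calc 4 * tau n * A ≤ 4 * n * A := by gcongr
        _ = 4 * n * (1 * A) := by ring
        _ ≤ 4 * n * (e * A) := by gcongr
    calc 4 * tau n / ((e : ℝ) * A) * |w| * K * ‖rs n A D‖
        ≤ 4 * n / A * |w| * (2 * A * Real.exp (-((n : ℝ) / A))) * (2 * A) := by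
          have := rs_le n A D
          gcongr
      _ = 16 * A * |w| * ((n : ℝ) * Real.exp (-((n : ℝ) / A))) := by
          field_simp
          ring

theorem summ (hK0 : T_K0) (hVK : T_VK) (a e m D : ℕ) (he : 1 ≤ e) (hm : 1 ≤ m)
    (hD : 1 ≤ D) :
    Summable (fun i : ℕ × ℕ => ‖if a ∣ i.1 then aa e m i.1 i.2 D else 0‖) := by
  obtain ⟨C, hC, hb⟩ := lin
  obtain ⟨V, hV, hv, -⟩ := hVK
  have he1 : (1 : ℝ) ≤ e := by exact_mod_cast he
  have he0 : (0 : ℝ) < e := by linarith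
  have hm0 : (0 : ℝ) < m := by exact_mod_cast hm
  have hD0 : (0 : ℝ) < Real.sqrt D := Real.sqrt_pos.2 (by exact_mod_cast hD)
  have hF : ∀ A n : ℕ, 1 ≤ A → ‖if a ∣ A then aa e m A n D else 0‖ ≤
      16 * A * |Vk ((e : ℝ) ^ 2 * A / ((m : ℝ) * Real.sqrt D))| *
      ((n : ℝ) * Real.exp (-((n : ℝ) / A))) := by
    intro A n hA
    split_ifs
    · exact aa_le hK0 e m A n D he hA hD
    · rw [norm_zero]; positivity
  have hin : ∀ A : ℕ, Summable (fun n : ℕ => ‖if a ∣ A then aa e m A n D else 0‖) := by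
    intro A
    rcases Nat.eq_zero_or_pos A with hA | hA
    · rw [hA]
      simp only [aa_zero_left, ite_self, norm_zero]
      exact summable_zero
    · exact Summable.of_nonneg_of_le (fun n => norm_nonneg _) (fun n => hF A n hA)
        ((hb A hA).1.mul_left _)
  rw [summable_prod_of_nonneg (fun i => norm_nonneg _)]
  refine ⟨hin, ?_⟩
  obtain ⟨x, hx⟩ : ∃ x : ℝ, x = 6 * ((e : ℝ) ^ 2 / ((m : ℝ) * Real.sqrt D)) := ⟨_, rfl⟩
  have hx0 : 0 < x := by rw [hx]; positivity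
  refine Summable.of_nonneg_of_le (fun A => tsum_nonneg fun n => norm_nonneg _) ?_
    ((Real.summable_pow_mul_exp_neg_nat_mul 3 hx0).mul_left (16 * V * C))
  intro A
  rcases Nat.eq_zero_or_pos A with hA | hA
  · rw [hA]
    simp only [aa_zero_left, ite_self, norm_zero, tsum_zero]
    positivity
  · have hA0 : (0 : ℝ) < A := by exact_mod_cast hA
    have h1 : |Vk ((e : ℝ) ^ 2 * A / ((m : ℝ) * Real.sqrt D))| ≤ V * Real.exp (-x * A) := by
      refine (hv _ (by positivity)).trans (le_of_eq ?_)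
      rw [hx]
      congr 2
      ring
    calc ∑' n : ℕ, ‖if a ∣ A then aa e m A n D else 0‖
        ≤ ∑' n : ℕ, 16 * A * |Vk ((e : ℝ) ^ 2 * A / ((m : ℝ) * Real.sqrt D))| *
            ((n : ℝ) * Real.exp (-((n : ℝ) / A))) :=
          (hin A).tsum_le_tsum (fun n => hF A n hA) ((hb A hA).1.mul_left _)
      _ = 16 * A * |Vk ((e : ℝ) ^ 2 * A / ((m : ℝ) * Real.sqrt D))| *
            ∑' n : ℕ, ((n : ℝ) * Real.exp (-((n : ℝ) / A))) := tsum_mul_left
      _ ≤ 16 * A * (V * Real.exp (-x * A)) * (C * (A : ℝ) ^ 2) := by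
          have := (hb A hA).2
          have h0 : 0 ≤ ∑' n : ℕ, ((n : ℝ) * Real.exp (-((n : ℝ) / A))) :=
            tsum_nonneg fun n => by positivity
          gcongr
      _ = 16 * V * C * ((A : ℝ) ^ 3 * Real.exp (-x * A)) := by ring

theorem term (hFEN : T_FEN) (hK0 : T_K0) (e m A D : ℕ) (he : 1 ≤ e) (hA : 1 ≤ A)
    (hD : 1 ≤ D) :
    Vk ((e : ℝ) ^ 2 * A / ((m : ℝ) * Real.sqrt D)) / Real.sqrt ((e : ℝ) ^ 2 * A) *
      ∑ B ∈ (Finset.range (2 * A)).filter (fun B => 4 * A ∣ B ^ 2 + D), (zf A B D - ct A D) =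
    ∑' n : ℕ, (aa e m A n D).re := by
  have hA0 : (0 : ℝ) < A := by exact_mod_cast hA
  have hD0 : (0 : ℝ) < D := by exact_mod_cast hD
  have he0 : (0 : ℝ) < e := by exact_mod_cast he
  obtain ⟨w, hw⟩ : ∃ w : ℝ, w = Vk ((e : ℝ) ^ 2 * A / ((m : ℝ) * Real.sqrt D)) := ⟨_, rfl⟩
  have hS : Summable (fun n : ℕ => tau n * k0 (π * n * Real.sqrt D / A)) :=
    (hFEN A 0 D hA0 hD0).1
  have hk : ∀ n : ℕ, 0 ≤ tau n * k0 (π * n * Real.sqrt D / A) := by
    intro n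
    rcases Nat.eq_zero_or_pos n with hn | hn
    · rw [hn, tau]; simp
    · exact mul_nonneg (tau_nonneg n) (k0_le hK0 n A D hn hA hD).1
  have hSc : ∀ B : ℕ, Summable (fun n : ℕ => tau n * k0 (π * n * Real.sqrt D / A) *
      Real.cos (π * n * B / A)) := by
    intro B
    refine Summable.of_norm_bounded hS fun n => ?_
    rw [norm_mul, Real.norm_of_nonneg (hk n), Real.norm_eq_abs]
    exact mul_le_of_le_one_right (hk n) (Real.abs_cos_le_one _)
  have h1 : ∀ B ∈ (Finset.range (2 * A)).filter (fun B => 4 * A ∣ B ^ 2 + D),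
      zf A B D - ct A D = 4 / Real.sqrt A * ∑' n : ℕ,
        tau n * k0 (π * n * Real.sqrt D / A) * Real.cos (π * n * B / A) :=
    fun B _ => (hFEN A B D hA0 hD0).2
  rw [Finset.sum_congr rfl h1, ← Finset.mul_sum, ← Summable.tsum_finsetSum fun B _ => hSc B,
    ← mul_assoc, ← tsum_mul_left]
  refine tsum_congr fun n => ?_
  rw [← Finset.mul_sum, ← rs_re, aa, Complex.re_ofReal_mul, ← hw]
  have hs : Real.sqrt ((e : ℝ) ^ 2 * A) = e * Real.sqrt A := by
    rw [Real.sqrt_mul (by positivity), Real.sqrt_sq he0.le]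
  have hq : Real.sqrt A * Real.sqrt A = A := Real.mul_self_sqrt hA0.le
  have hq0 : 0 < Real.sqrt A := Real.sqrt_pos.2 hA0
  have h2 : w / (e * Real.sqrt A) * (4 / Real.sqrt A) = 4 * w / (e * A) := by
    rw [div_mul_div_comm, mul_assoc, hq]
    ring
  rw [hs, h2]
  ring

theorem pf_UAA (hFEN : T_FEN) (hK0 : T_K0) (hVK : T_VK) : T_UAA := by
  intro a e m D _ he hm hD
  have hS := summ hK0 hVK a e m D he hm hD
  refine ⟨hS, ?_⟩
  have hS' : Summable (fun i : ℕ × ℕ => if a ∣ i.1 then aa e m i.1 i.2 D else 0) :=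
    hS.of_norm
  have hR : Summable (fun i : ℕ × ℕ => (if a ∣ i.1 then aa e m i.1 i.2 D else 0).re) :=
    (Complex.hasSum_re hS'.hasSum).summable
  rw [Complex.re_tsum hS', hR.tsum_prod, UU]
  refine tsum_congr fun A => ?_
  by_cases hA : 1 ≤ A ∧ a ∣ A
  · rw [if_pos hA]
    simp only [if_pos hA.2]
    exact term hFEN hK0 e m A D he hA.1 hD
  · rw [if_neg hA]
    have h0 : ∀ n : ℕ, (if a ∣ A then aa e m A n D else 0).re = 0 := by
      intro n
      by_cases h : a ∣ A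
      · have hA0 : A = 0 := by
          by_contra hne
          exact hA ⟨Nat.one_le_iff_ne_zero.2 hne, h⟩
        rw [if_pos h, hA0, aa_zero_left, Complex.zero_re]
      · rw [if_neg h, Complex.zero_re]
    simp only [h0, tsum_zero]

end Pool.Agent.H63.AD
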